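import Pool.Agent.W670.ML.Defs2

set_option autoImplicit false

namespace Pool.Agent.W349.ML2

open NumberField Pool.Agent.W670.ML

theorem int_iff {Q : Type} [Field Q] (x : Q) :
    x ∈ (algebraMap (𝓞 Q) Q).range ↔ IsIntegral ℤ x := by
  constructor
  · rintro ⟨y, rfl⟩
    exact NumberField.RingOfIntegers.isIntegral_coe y
  · intro h
    exact ⟨⟨x, h⟩, rfl⟩

/-- Elements of the different. -/
theorem mem_diff (Q P : Type) [Field Q] [NumberField Q] [Field P] [NumberField P] [Algebra Q P]
    (z : 𝓞 P) : z ∈ differentIdeal (𝓞 Q) (𝓞 P) ↔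
      ∀ x : P, (∀ y : P, IsIntegral ℤ y → IsIntegral ℤ (Algebra.trace Q P (x * y))) →
        IsIntegral ℤ ((z : P) * x) := by
  have h1 : z ∈ differentIdeal (𝓞 Q) (𝓞 P) ↔
      (z : P) ∈ IsLocalization.coeSubmodule P (differentIdeal (𝓞 Q) (𝓞 P)) := by
    rw [IsLocalization.mem_coeSubmodule]
    constructor
    · intro h
      exact ⟨z, h, rfl⟩
    · rintro ⟨y, hy, hyz⟩
      have : y = z := NumberField.RingOfIntegers.coe_injective hyz
      rwa [← this]
  rw [h1, coeSubmodule_differentIdeal (𝓞 Q) Q, Submodule.mem_div_iff_forall_mul_mem]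
  constructor
  · intro h x hx
    have h2 := h x (by
      rw [Submodule.mem_traceDual]
      intro a ha
      obtain ⟨b, rfl⟩ := Submodule.mem_one.1 ha
      rw [Algebra.traceForm_apply, int_iff]
      exact hx _ (NumberField.RingOfIntegers.isIntegral_coe b))
    obtain ⟨b, hb⟩ := Submodule.mem_one.1 h2
    rw [← hb]
    exact NumberField.RingOfIntegers.isIntegral_coe b
  · intro h x hx
    rw [Submodule.mem_traceDual] at hx
    have h2 := h x (by
      intro y hy
      have h3 := hx y (Submodule.mem_one.2 ⟨⟨y, hy⟩, rfl⟩)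
      rw [Algebra.traceForm_apply, int_iff] at h3
      exact h3)
    exact Submodule.mem_one.2 ⟨⟨_, h2⟩, rfl⟩

theorem dv (h1 : S_DB) (h2 : S_DE) : S_DV := by
  intro K A B M _ _ _ _ _ _ _ _ _ _ _ _ _ _ _ hgen
  obtain ⟨s, β, γ, hβ, hγ, hsum⟩ := h1 K B
  rw [Ideal.map_le_iff_le_comap]
  intro z hz
  rw [Ideal.mem_comap, mem_diff]
  rw [mem_diff] at hz
  intro x hx
  have h3 := h2 K A B M hgen s β γ hsum x
  have h4 : (((algebraMap (𝓞 B) (𝓞 M) z : 𝓞 M) : M)) = algebraMap B M (z : B) := rfl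
  rw [h4, h3, Finset.mul_sum]
  refine IsIntegral.sum _ fun j _ => ?_
  have h5 : algebraMap B M (z : B) * (algebraMap A M (Algebra.trace A M
      (x * algebraMap B M (β j))) * algebraMap B M (γ j)) =
      algebraMap A M (Algebra.trace A M (x * algebraMap B M (β j))) *
        algebraMap B M ((z : B) * γ j) := by
    rw [map_mul (algebraMap B M) (z : B) (γ j)]
    ring
  rw [h5]
  refine IsIntegral.mul ?_ ?_
  · exact (hx _ ((hβ j).map (algebraMap B M).toIntAlgHom)).map (algebraMap A M).toIntAlgHom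
  · exact (hz (γ j) (hγ j)).map (algebraMap B M).toIntAlgHom

end Pool.Agent.W349.ML2
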